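import Mathlib

namespace Pool.Agent.H.MP_0f6055_nt

/-- `b^{(r)}_n = 1`: cutting the binary digit list of `n` at the digits `1`, every resulting
block of zeros has length a multiple of `r`. -/
def BS (r n : ℕ) : Prop := ∀ l ∈ (Nat.digits 2 n).splitOn 1, r ∣ l.length

/-- increasing enumeration of the `m` with `b^{(r)}_m = 0` -/
noncomputable def h (r n : ℕ) : ℤ := (Nat.nth (fun m => ¬ BS r m) n : ℕ)

def kernel (k : ℕ) (u : ℕ → ℤ) : Set (ℕ → ℤ) :=
  {v | ∃ i j : ℕ, j < k ^ i ∧ v = fun n => u (k ^ i * n + j)}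

def IsRegular (k : ℕ) (u : ℕ → ℤ) : Prop := (Submodule.span ℤ (kernel k u)).FG

end Pool.Agent.H.MP_0f6055_nt
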