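import Pool.Agent.H.MP_0f6055_nt.Defs

namespace Pool.Agent.H.MP_0f6055_nt
open Finset
open scoped Classical

lemma bs_key (r s n : ℕ) : BS r (2 ^ s * (2 * n + 1)) ↔ r ∣ s ∧ BS r n := by
  unfold BS
  rw [Nat.digits_base_pow_mul (by norm_num) (by omega), add_comm,
    Nat.digits_add 2 (by norm_num) 1 n (by norm_num) (by simp),
    List.splitOn_append_cons_self_of_not_mem (by simp)]
  simp

lemma bs_zero (r : ℕ) : BS r 0 := by simp [BS]

lemma bs_odd (r n : ℕ) : BS r (2 * n + 1) ↔ BS r n := by simpa using bs_key r 0 n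

lemma decomp {m : ℕ} (hm : m ≠ 0) : ∃ s n, m = 2 ^ s * (2 * n + 1) := by
  obtain ⟨s, x, ⟨n, rfl⟩, e⟩ := Nat.exists_eq_two_pow_mul_odd hm
  exact ⟨s, n, e⟩

lemma bs_pow (r n : ℕ) : BS r (2 ^ r * n) ↔ BS r n := by
  rcases eq_or_ne n 0 with rfl | hn
  · simp
  obtain ⟨s, x, rfl⟩ := decomp hn
  rw [← mul_assoc, ← pow_add, bs_key, bs_key, Nat.dvd_add_right dvd_rfl]

lemma bs_even {r n : ℕ} (h : BS (r + 1) (2 * n)) : 2 ^ r ∣ n := by
  rcases eq_or_ne n 0 with rfl | hn
  · simp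
  obtain ⟨s, x, rfl⟩ := decomp hn
  rw [← mul_assoc, ← pow_succ', bs_key] at h
  exact (pow_dvd_pow 2 (by have := Nat.le_of_dvd (by omega) h.1; omega)).mul_right _

lemma gap {r : ℕ} (hr : 2 ≤ r) (j : ℕ) : ∀ m, m / 2 ^ j = 5 → ¬ BS r m := by
  induction j using Nat.strong_induction_on with
  | _ j ih =>
    intro m hm hb
    have m0 : m ≠ 0 := by rintro rfl; simp at hm
    obtain ⟨s, n, rfl⟩ := decomp m0
    rw [bs_key] at hb
    rcases lt_or_ge s j with c | c
    · obtain ⟨d, rfl⟩ := Nat.exists_eq_add_of_lt c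
      refine ih d (by omega) n ?_ hb.2
      rw [show s + d + 1 = s + (1 + d) by ring, pow_add, Nat.mul_div_mul_left _ _ (by positivity),
        pow_add, ← Nat.div_div_eq_div_mul, show (2 * n + 1) / 2 ^ 1 = n by omega] at hm
      exact hm
    · obtain ⟨d, rfl⟩ := Nat.exists_eq_add_of_le c
      rw [pow_add, mul_assoc, Nat.mul_div_cancel_left _ (by positivity)] at hm
      rcases d with _ | d
      · have : n = 2 ^ 1 * (2 * 0 + 1) := by omega
        have h2 := hb.2
        rw [this, bs_key] at h2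
        have := Nat.le_of_dvd (by omega) h2.1
        omega
      · rw [pow_succ', mul_assoc] at hm
        omega

noncomputable def c (r N : ℕ) : ℕ := Nat.count (BS r) N
noncomputable def z (r N : ℕ) : ℕ := Nat.count (fun m => ¬ BS r m) N

lemma c_add_z (r N : ℕ) : c r N + z r N = N := by
  induction N with
  | zero => simp [c, z]
  | succ N ih =>
    unfold c z at *
    rw [Nat.count_succ, Nat.count_succ]
    split_ifs <;> omega

lemma c_two (r N : ℕ) : c r (2 * N) = c r N + Nat.count (fun n => BS r (2 * n)) N := by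
  induction N with
  | zero => simp [c]
  | succ N ih =>
    unfold c at *
    rw [show 2 * (N + 1) = 2 * N + 1 + 1 by ring, Nat.count_succ, Nat.count_succ, Nat.count_succ,
      Nat.count_succ, ih, bs_odd]
    ring

lemma c_rec (r N : ℕ) : c (r + 1) (2 ^ (r + 1) * N) = c (r + 1) (2 ^ r * N) + c (r + 1) N := by
  rw [pow_succ', mul_assoc, c_two]
  congr 1
  unfold c
  rw [Nat.count_eq_card_filter_range, Nat.count_eq_card_filter_range]
  symm
  refine card_bij (fun n _ => 2 ^ r * n) (fun n hn => ?_) (fun a _ b _ e => ?_) (fun m hm => ?_)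
  · obtain ⟨a, b⟩ := mem_filter.1 hn
    refine mem_filter.2 ⟨mem_range.2 (Nat.mul_lt_mul_of_pos_left (mem_range.1 a) (by positivity)), ?_⟩
    rwa [← mul_assoc, ← pow_succ', bs_pow]
  · exact Nat.eq_of_mul_eq_mul_left (by positivity) e
  · obtain ⟨a, b⟩ := mem_filter.1 hm
    obtain ⟨n, rfl⟩ := bs_even b
    rw [← mul_assoc, ← pow_succ', bs_pow] at b
    exact ⟨n, mem_filter.2 ⟨mem_range.2 (Nat.lt_of_mul_lt_mul_left (mem_range.1 a)), b⟩, rfl⟩

lemma periodic {R : Type} [CommRing R] [Finite R] (r : ℕ) (q : 0 < r) (u : ℕ → R)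
    (hu : ∀ t, u (t + r + 1) = u (t + r) + u t) : ∃ P, 0 < P ∧ ∀ N t, u (t + N * P) = u t := by
  obtain ⟨a, b, hab, e⟩ : ∃ a b : ℕ, a < b ∧ ∀ i ≤ r, u (a + i) = u (b + i) := by
    obtain ⟨a, b, hab, e⟩ := Finite.exists_ne_map_eq_of_infinite
      (fun t : ℕ => fun i : Fin (r + 1) => u (t + i))
    have e' : ∀ i ≤ r, u (a + i) = u (b + i) := fun i hi => congrFun e ⟨i, by omega⟩
    rcases lt_or_gt_of_ne hab with p | p
    · exact ⟨a, b, p, e'⟩
    · exact ⟨b, a, p, fun i hi => (e' i hi).symm⟩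
  obtain ⟨P, rfl⟩ := Nat.exists_eq_add_of_le hab.le
  have down : ∀ a, (∀ i ≤ r, u (a + i) = u (a + P + i)) → ∀ i ≤ r, u i = u (P + i) := by
    intro a
    induction a with
    | zero => intro h i hi; simpa using h i hi
    | succ a ih =>
      intro h
      have h' : ∀ i, 1 ≤ i → i ≤ r + 1 → u (a + i) = u (a + P + i) := fun i h1 h2 => by
        have := h (i - 1) (by omega)
        rwa [show a + 1 + (i - 1) = a + i by omega, show a + 1 + P + (i - 1) = a + P + i by omega] at this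
      refine ih (fun i hi => ?_)
      rcases Nat.eq_zero_or_pos i with rfl | p
      · have e1 := hu a
        have e2 := hu (a + P)
        have e3 := h' (r + 1) (by omega) le_rfl
        rw [← add_assoc, ← add_assoc, e1, e2] at e3
        rw [h' r q (by omega)] at e3
        simpa using e3
      · exact h' i p (by omega)
  have base := down a e
  have up : ∀ t, u (t + P) = u t := by
    intro t
    induction t using Nat.strong_induction_on with
    | _ t ih =>
      rcases le_or_gt t r with p | p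
      · rw [add_comm, base t p]
      · obtain ⟨d, rfl⟩ := Nat.exists_eq_add_of_lt p
        have e1 := hu d
        have e2 := hu (d + P)
        rw [show r + d + 1 + P = d + P + r + 1 by ring, show r + d + 1 = d + r + 1 by ring, e1, e2,
          ih d (by omega), show d + P + r = d + r + P by ring, ih (d + r) (by omega)]
  refine ⟨P, by omega, fun N t => ?_⟩
  induction N with
  | zero => simp
  | succ N ih => rw [show t + (N + 1) * P = t + N * P + P by ring, up, ih]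

lemma loc {r j : ℕ} (hr : 2 ≤ r) (hj : r ∣ j + 1) :
    h r (z r (3 * 2 ^ (j + 1))) = 6 * 2 ^ j + 1 ∧ ∀ e, 1 ≤ e → e ≤ 2 ^ j →
      e ≤ z r (3 * 2 ^ (j + 1)) ∧ h r (z r (3 * 2 ^ (j + 1)) - e) = 6 * 2 ^ j - e := by
  set m := 3 * 2 ^ (j + 1) with hm
  have m6 : m = 6 * 2 ^ j := by rw [hm, pow_succ]; ring
  have b1 : BS r 1 := (bs_odd r 0).2 (bs_zero r)
  have a1 : BS r m := by
    rw [hm, mul_comm]; exact (bs_key r (j + 1) 1).2 ⟨hj, b1⟩
  have a2 : ¬ BS r (m + 1) := by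
    rw [show m + 1 = 2 * (2 ^ j * (2 * 1 + 1)) + 1 by rw [m6]; ring, bs_odd, bs_key]
    intro p
    have := Nat.le_of_dvd one_pos ((Nat.dvd_add_right p.1).1 hj)
    omega
  have a3 : ∀ e, 1 ≤ e → e ≤ 2 ^ j → ¬ BS r (m - e) := fun e h1 h2 =>
    gap hr j _ ((Nat.div_eq_iff (by positivity)).2 (by omega))
  have a4 : ∀ e, e ≤ 2 ^ j → z r (m - e) + e = z r m := by
    intro e
    induction e with
    | zero => simp
    | succ e ih =>
      intro he
      rw [← ih (by omega), show m - e = m - (e + 1) + 1 by omega]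
      unfold z
      rw [Nat.count_succ, if_pos (a3 _ (by omega) he)]
      ring
  refine ⟨?_, fun e h1 h2 => ⟨by have := a4 e h2; omega, ?_⟩⟩
  · have : z r m = z r (m + 1) := by
      unfold z
      rw [Nat.count_succ, if_neg (not_not.2 a1), add_zero]
    rw [this]
    unfold h z
    rw [Nat.nth_count (p := fun m => ¬ BS r m) a2, m6]
    push_cast
    rfl
  · rw [show z r m - e = z r (m - e) by have := a4 e h2; omega]
    unfold h z
    rw [Nat.nth_count (p := fun m => ¬ BS r m) (a3 e h1 h2), Nat.cast_sub (by omega), m6]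
    push_cast
    rfl

lemma kernel_fin {k : ℕ} {u : ℕ → ℤ} (hu : IsRegular k u) :
    ((fun (v : ℕ → ℤ) (n : ℕ) => (v n : ZMod 2)) '' kernel k u).Finite := by
  obtain ⟨S, hS⟩ := hu
  set red := fun (v : ℕ → ℤ) (n : ℕ) => (v n : ZMod 2) with hred
  set W := Submodule.span (ZMod 2) (red '' S) with hW
  have : Module.Finite (ZMod 2) W := Module.Finite.span_of_finite _ (S.finite_toSet.image _)
  have : Finite W := Module.finite_of_finite (ZMod 2)
  refine Set.Finite.subset (Set.toFinite (W : Set (ℕ → ZMod 2))) ?_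
  rintro _ ⟨v, hv, rfl⟩
  have hv' : v ∈ Submodule.span ℤ (S : Set (ℕ → ℤ)) := hS ▸ Submodule.subset_span hv
  clear hv
  induction hv' using Submodule.span_induction with
  | mem x hx => exact Submodule.subset_span ⟨x, hx, rfl⟩
  | zero =>
    have : red 0 = 0 := by ext n; simp [hred]
    rw [this]; exact W.zero_mem
  | add x y _ _ h1 h2 =>
    have : red (x + y) = red x + red y := by ext n; simp [hred]
    rw [this]; exact W.add_mem h1 h2
  | smul a x _ h1 =>
    have : red (a • x) = (a : ZMod 2) • red x := by ext n; simp [hred]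
    rw [this]; exact W.smul_mem _ h1

lemma classes {k : ℕ} (hk : 0 < k) {u : ℕ → ℤ} (hu : IsRegular k u) :
    ∃ (C : ℕ) (cls : ℕ → Fin C), ∀ n n', cls n = cls n' → ∀ i ρ, ρ < k ^ i →
      (u (k ^ i * n + ρ) : ZMod 2) = u (k ^ i * n' + ρ) ∧
      (u (k ^ i * n + ρ + 1) : ZMod 2) = u (k ^ i * n' + ρ + 1) := by
  have := (kernel_fin hu).to_subtype
  set K := (fun (v : ℕ → ℤ) (n : ℕ) => (v n : ZMod 2)) '' kernel k u
  obtain ⟨C, ⟨E⟩⟩ := Finite.exists_equiv_fin (K → ZMod 2 × ZMod 2)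
  refine ⟨C, fun n => E (fun f => (f.1 n, f.1 (n + 1))), fun n n' e i ρ hρ => ?_⟩
  have e' := fun (j : ℕ) (hj : j < k ^ i) =>
    congrFun (E.injective e) ⟨_, ⟨_, ⟨i, j, hj, rfl⟩, rfl⟩⟩
  refine ⟨(Prod.ext_iff.1 (e' ρ hρ)).1, ?_⟩
  rcases lt_or_ge (ρ + 1) (k ^ i) with p | p
  · exact (Prod.ext_iff.1 (e' (ρ + 1) p)).1
  · have := (Prod.ext_iff.1 (e' 0 (by positivity))).2
    rw [show k ^ i * n + ρ + 1 = k ^ i * (n + 1) + 0 by rw [mul_add]; omega,
      show k ^ i * n' + ρ + 1 = k ^ i * (n' + 1) + 0 by rw [mul_add]; omega]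
    exact this

lemma resid {r k C : ℕ} (hr : 2 ≤ r) {cls : ℕ → Fin C}
    (hc : ∀ n n', cls n = cls n' → ∀ i ρ, ρ < k ^ i →
      (h r (k ^ i * n + ρ) : ZMod 2) = h r (k ^ i * n' + ρ) ∧
      (h r (k ^ i * n + ρ + 1) : ZMod 2) = h r (k ^ i * n' + ρ + 1))
    (hk : 0 < k) {i j j' : ℕ} (hj : r ∣ j + 1) (hj' : r ∣ j' + 1) (h2 : k ^ i ≤ 2 ^ j')
    (e : cls ((z r (3 * 2 ^ (j + 1)) - 1) / k ^ i) = cls ((z r (3 * 2 ^ (j' + 1)) - 1) / k ^ i)) :
    (z r (3 * 2 ^ (j' + 1)) - 1) % k ^ i ≤ (z r (3 * 2 ^ (j + 1)) - 1) % k ^ i := by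
  by_contra lt
  push Not at lt
  obtain ⟨a1, a2⟩ := loc hr hj
  obtain ⟨-, b2⟩ := loc hr hj'
  set X := z r (3 * 2 ^ (j + 1))
  set X' := z r (3 * 2 ^ (j' + 1))
  have kp : 0 < k ^ i := by positivity
  obtain ⟨p1, p2⟩ := hc _ _ e i _ (Nat.mod_lt (X - 1) kp)
  have l2 := Nat.mod_lt (X' - 1) kp
  have d2 := Nat.div_add_mod (X' - 1) (k ^ i)
  obtain ⟨q1, q2⟩ := a2 1 le_rfl Nat.one_le_two_pow
  have q3 := (b2 1 le_rfl Nat.one_le_two_pow).1
  rw [Nat.div_add_mod] at p1 p2
  clear hc e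
  generalize (X - 1) % k ^ i = ρ at *
  generalize (X' - 1) % k ^ i = ρ' at *
  generalize k ^ i * ((X' - 1) / k ^ i) = Q at *
  obtain ⟨d, hd⟩ := Nat.exists_eq_add_of_lt lt
  obtain ⟨s1, s2⟩ := b2 (d + 2) (by omega) (by omega)
  obtain ⟨-, s3⟩ := b2 (d + 1) (by omega) (by omega)
  rw [show Q + ρ = X' - (d + 2) by omega] at p1 p2
  rw [show X - 1 + 1 = X by omega, show X' - (d + 2) + 1 = X' - (d + 1) by omega, a1, s3] at p2
  rw [q2, s2] at p1
  push_cast at p1 p2
  have : (1 : ZMod 2) = 0 := by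
    have t : (2 : ZMod 2) = 0 := rfl
    linear_combination p1 - p2 + (2 : ZMod 2) * t - t
  exact absurd this (by decide)

lemma main {r k : ℕ} (hr : 2 ≤ r) (hk : 2 ≤ k) : ¬ IsRegular k (h r) := by
  intro hu
  obtain ⟨C, cls, hc⟩ := classes (by omega) hu
  obtain ⟨r, rfl⟩ : ∃ s, r = s + 1 := ⟨r - 1, by omega⟩
  let u : ℕ → ℕ := fun t => c (r + 1) (3 * 2 ^ t)
  let x : ℕ → ℕ := fun t => z (r + 1) (3 * 2 ^ t)
  have ux : ∀ t, u t + x t = 3 * 2 ^ t := fun t => c_add_z _ _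
  have urec : ∀ t, u (t + r + 1) = u (t + r) + u t := fun t => by
    have := c_rec r (3 * 2 ^ t)
    rwa [show 2 ^ (r + 1) * (3 * 2 ^ t) = 3 * 2 ^ (t + r + 1) by ring,
      show 2 ^ r * (3 * 2 ^ t) = 3 * 2 ^ (t + r) by ring] at this
  have pm : ∀ a b : ℕ, a < b → 3 * 2 ^ ((r + 1) * (a + 1)) + 1 < 3 * 2 ^ ((r + 1) * (b + 1)) := by
    intro a b hab
    have h1 : 2 ^ ((r + 1) * (a + 1) + 1) ≤ 2 ^ ((r + 1) * (b + 1)) :=
      Nat.pow_le_pow_right (by norm_num) (by nlinarith)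
    have h2 : 0 < 2 ^ ((r + 1) * (a + 1)) := by positivity
    rw [pow_succ] at h1
    omega
  have b1 : BS (r + 1) 1 := (bs_odd _ 0).2 (bs_zero _)
  have um : StrictMono (fun a => u ((r + 1) * (a + 1))) := fun a b hab =>
    Nat.count_strict_mono (p := BS (r + 1))
      (by rw [mul_comm]; exact (bs_key _ _ 1).2 ⟨dvd_mul_right _ _, b1⟩) (by have := pm a b hab; omega)
  have xm : StrictMono (fun a => x ((r + 1) * (a + 1))) := fun a b hab => by
    refine lt_of_le_of_lt (Nat.count_monotone _ (Nat.le_succ _))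
      (Nat.count_strict_mono (p := fun m => ¬ BS (r + 1) m) ?_ (pm a b hab))
    obtain ⟨j, hj⟩ : ∃ j, (r + 1) * (a + 1) = j + 1 := ⟨(r + 1) * (a + 1) - 1, by
      have : 0 < (r + 1) * (a + 1) := by positivity
      omega⟩
    rw [Nat.succ_eq_add_one, hj, show 3 * 2 ^ (j + 1) + 1 = 2 * (2 ^ j * (2 * 1 + 1)) + 1 by ring,
      bs_odd, bs_key]
    intro p
    have := Nat.le_of_dvd one_pos ((Nat.dvd_add_right p.1).1 (hj ▸ dvd_mul_right _ _))
    omega
  obtain ⟨i, hi⟩ : ∃ i, i = 3 * 2 ^ ((r + 1) * (C + 1)) := ⟨_, rfl⟩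
  -- key step: two indices with equal residues
  have key : ∀ M T : ℕ, M ∣ k ^ i → k ^ i ≤ T → ∃ a b : ℕ, a < b ∧ b ≤ C ∧
      (x ((r + 1) * (a + 1) + (r + 1) * T) : ZMod M) = x ((r + 1) * (b + 1) + (r + 1) * T) := by
    intro M T hM hT
    let J : ℕ → ℕ := fun a => (r + 1) * (a + 1) + (r + 1) * T - 1
    have hJ : ∀ a, J a + 1 = (r + 1) * (a + 1) + (r + 1) * T := fun a => by
      have : 0 < (r + 1) * (a + 1) := by positivity
      simp only [J]; omega
    have hd : ∀ a, r + 1 ∣ J a + 1 := fun a => by rw [hJ, ← mul_add]; exact dvd_mul_right _ _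
    have hb : ∀ a, k ^ i ≤ 2 ^ J a := fun a => by
      have h1 := hJ a
      have : T ≤ J a := by nlinarith
      exact hT.trans (this.trans Nat.lt_two_pow_self.le)
    obtain ⟨a, b, hab, e⟩ := Fintype.exists_ne_map_eq_of_card_lt
      (fun a : Fin (C + 1) => cls ((x (J a + 1) - 1) / k ^ i)) (by simp)
    have e1 := resid hr hc (by omega) (hd a) (hd b) (hb b) e
    have e2 := resid hr hc (by omega) (hd b) (hd a) (hb a) e.symm
    have e3 : x (J a + 1) - 1 ≡ x (J b + 1) - 1 [MOD M] :=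
      Nat.ModEq.of_dvd hM (le_antisymm e2 e1)
    have pa := ((loc hr (hd a)).2 1 le_rfl Nat.one_le_two_pow).1
    have pb := ((loc hr (hd b)).2 1 le_rfl Nat.one_le_two_pow).1
    have e4 := e3.add_right 1
    rw [Nat.sub_add_cancel pa, Nat.sub_add_cancel pb, hJ, hJ, ← ZMod.natCast_eq_natCast_iff] at e4
    rcases lt_or_gt_of_ne (Fin.val_ne_of_ne hab) with p | p
    · exact ⟨a, b, p, by omega, e4⟩
    · exact ⟨b, a, p, by omega, e4.symm⟩
  have bnd : ∀ b, b ≤ C → 3 * 2 ^ ((r + 1) * (b + 1)) ≤ i := fun b hb =>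
    hi ▸ Nat.mul_le_mul_left 3 (Nat.pow_le_pow_right (by norm_num) (by nlinarith))
  have fin : ∀ M y y' : ℕ, i < M → y < y' → y' ≤ i → (y : ZMod M) ≠ y' := by
    intro M y y' h1 h2 h3 e
    have := ((ZMod.natCast_eq_natCast_iff _ _ _).1 e).eq_of_lt_of_lt (by omega) (by omega)
    omega
  have xz : ∀ M t : ℕ, (x t : ZMod M) = 3 * 2 ^ t - u t := fun M t => by
    have := congrArg (Nat.cast : ℕ → ZMod M) (ux t)
    push_cast at this
    linear_combination this
  rcases Nat.even_or_odd k with ev | od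
  · have : NeZero (2 ^ i) := ⟨by positivity⟩
    obtain ⟨P, P0, hP⟩ := periodic r (by omega) (fun t => (u t : ZMod (2 ^ i)))
      (fun t => by simp [urec])
    obtain ⟨a, b, h1, h2, e⟩ := key (2 ^ i) (k ^ i * P) (pow_dvd_pow_of_dvd ev.two_dvd i)
      (Nat.le_mul_of_pos_right _ P0)
    have zero : ∀ t, (2 : ZMod (2 ^ i)) ^ (t + (r + 1) * (k ^ i * P)) = 0 := fun t => by
      have h3 : i ≤ k ^ i := (Nat.lt_pow_self (by omega)).le
      obtain ⟨d, hd⟩ := Nat.exists_eq_add_of_le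
        (show i ≤ t + (r + 1) * (k ^ i * P) by nlinarith [Nat.le_mul_of_pos_right (k ^ i) P0])
      rw [hd, pow_add]
      have : ((2 ^ i : ℕ) : ZMod (2 ^ i)) = 0 := ZMod.natCast_self _
      push_cast at this
      rw [this, zero_mul]
    rw [xz, xz, zero, zero, ← mul_assoc, hP, hP] at e
    refine fin (2 ^ i) _ _ Nat.lt_two_pow_self (um h1) ?_ (by linear_combination -e)
    have := ux ((r + 1) * (b + 1))
    have := bnd b h2
    beta_reduce
    omega
  · have : NeZero (k ^ i) := ⟨by positivity⟩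
    obtain ⟨P, P0, hP⟩ := periodic r (by omega) (fun t => (u t : ZMod (k ^ i)))
      (fun t => by simp [urec])
    have cop : Nat.Coprime 2 (k ^ i) := (Nat.coprime_two_left.2 od).pow_right i
    have t0 : 0 < Nat.totient (k ^ i) := Nat.totient_pos.2 (by positivity)
    obtain ⟨a, b, h1, h2, e⟩ := key (k ^ i) (k ^ i * Nat.totient (k ^ i) * P) dvd_rfl
      (by rw [mul_assoc]; exact Nat.le_mul_of_pos_right _ (by positivity))
    have one : ∀ t, (2 : ZMod (k ^ i)) ^ (t + (r + 1) * (k ^ i * Nat.totient (k ^ i) * P)) = 2 ^ t :=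
      fun t => by
      have := (ZMod.natCast_eq_natCast_iff _ _ _).2 (Nat.ModEq.pow_totient cop)
      push_cast at this
      rw [show t + (r + 1) * (k ^ i * Nat.totient (k ^ i) * P) =
        t + Nat.totient (k ^ i) * ((r + 1) * k ^ i * P) by ring, pow_add, pow_mul, this, one_pow,
        mul_one]
    rw [xz, xz, one, one, ← mul_assoc, hP, hP, ← xz, ← xz] at e
    refine fin (k ^ i) _ _ (Nat.lt_pow_self (by omega)) (xm h1) ?_ e
    have := ux ((r + 1) * (b + 1))
    have := bnd b h2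
    beta_reduce
    omega

end Pool.Agent.H.MP_0f6055_nt
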